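import Pool.Agent.H27.KB.CEN
import Pool.Agent.H52.KB.NDDef
import Pool.Agent.H89.KD.Defs

/-!
# Project KB (full KLS, part B): uniform bounds for the iterated derivatives of posterior means

`nd_bd`: `(ND U ψ l s θ)² ≤ B cv (pw U s θ) ψ ψ`, `nx_bd`: `|ND U ⟨e, ·⟩ l s θ| ≤ B`, for nonempty
words `l`, with `B` uniform over all `U` with `Hess U ≥ t`, all `ψ`, all `s ≥ 0` and all `θ`.
-/

set_option autoImplicit false
set_option linter.unusedSectionVars false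

open MeasureTheory Set Filter Topology
open scoped ContDiff

namespace Pool.Agent.H27.KB

open Pool.Agent.H84 Pool.Agent.H84.Sym Pool.Agent.H84.Sym.P2x Pool.Agent.H19.KL
open Pool.Agent.H84.Sym.C29 Pool.Agent.H84.Sym.P6
open Pool.Agent.H73.KG

variable {E : Type} [NormedAddCommGroup E] [InnerProductSpace ℝ E]
    [FiniteDimensional ℝ E] [MeasurableSpace E] [BorelSpace E]

/-- families of functions of `(s, θ)` depending on the potential and the function `ψ`, homogeneous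
of degree `d` in the centred function `ψ` -/
inductive Cc : ℕ → ((E → ℝ) → (E → ℝ) → ℝ → E → ℝ) → Prop
  | zero (d : ℕ) : Cc d (fun _ _ _ _ => 0)
  | cst (c : ℝ) : Cc 0 (fun _ _ _ _ => c)
  | a (l : List E) : Cc 0 (fun U _ s θ => CM U (fun _ => 1) l s θ)
  | z (l : List E) : Cc 1 (fun U ψ s θ => CM U ψ l s θ - pm U s θ ψ * CM U (fun _ => 1) l s θ)
  | add {d : ℕ} {F G : (E → ℝ) → (E → ℝ) → ℝ → E → ℝ} : Cc d F → Cc d G →
      Cc d (fun U ψ s θ => F U ψ s θ + G U ψ s θ)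
  | mul {d e : ℕ} {F G : (E → ℝ) → (E → ℝ) → ℝ → E → ℝ} : Cc d F → Cc e G →
      Cc (d + e) (fun U ψ s θ => F U ψ s θ * G U ψ s θ)

theorem Cc.mul0 {d : ℕ} {F G : (E → ℝ) → (E → ℝ) → ℝ → E → ℝ} (hF : Cc 0 F) (hG : Cc d G) :
    Cc d (fun U ψ s θ => F U ψ s θ * G U ψ s θ) := by
  have := hF.mul hG
  rwa [zero_add] at this

theorem Cc.neg {d : ℕ} {F : (E → ℝ) → (E → ℝ) → ℝ → E → ℝ} (hF : Cc d F) :
    Cc d (fun U ψ s θ => -F U ψ s θ) := by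
  have := (Cc.cst (-1)).mul0 hF
  simpa using this

theorem Cc.sub {d : ℕ} {F G : (E → ℝ) → (E → ℝ) → ℝ → E → ℝ} (hF : Cc d F) (hG : Cc d G) :
    Cc d (fun U ψ s θ => F U ψ s θ - G U ψ s θ) := by
  have := hF.add hG.neg
  simpa [sub_eq_add_neg] using this

theorem Cc.ers {d : ℕ} {c : E → (E → ℝ) → (E → ℝ) → ℝ → E → ℝ} (hc : ∀ v, Cc 0 (c v))
    (l : List E) : ∀ {Φ : List E → (E → ℝ) → (E → ℝ) → ℝ → E → ℝ}, (∀ l', Cc d (Φ l')) →
    Cc d (fun U ψ s θ => ers (fun v => c v U ψ s θ) l (fun l' => Φ l' U ψ s θ)) := by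
  induction l with
  | nil => intro Φ _; exact Cc.zero d
  | cons v l ih =>
    intro Φ hΦ
    exact ((hc v).mul0 (hΦ l)).add (ih fun l' => hΦ (v :: l'))

/-- the class is closed under differentiation in `θ` -/
theorem Cc.deriv {d : ℕ} {F : (E → ℝ) → (E → ℝ) → ℝ → E → ℝ} (hF : Cc d F) (w : E) :
    ∃ F' : (E → ℝ) → (E → ℝ) → ℝ → E → ℝ, Cc d F' ∧ ∀ (U : E → ℝ) (t : ℝ) (ψ : E → ℝ), PP U t →
      GC ψ → ∀ (s : ℝ) (θ : E), 0 ≤ s → DifferentiableAt ℝ (fun θ => F U ψ s θ) θ ∧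
        D w (fun θ => F U ψ s θ) θ = F' U ψ s θ := by
  induction hF with
  | zero d =>
    refine ⟨_, Cc.zero d, fun U t ψ _ _ s θ _ => ⟨differentiableAt_const _, ?_⟩⟩
    unfold D
    simp
  | cst c =>
    refine ⟨_, Cc.zero 0, fun U t ψ _ _ s θ _ => ⟨differentiableAt_const _, ?_⟩⟩
    unfold D
    simp
  | a l =>
    refine ⟨_, (Cc.a (w :: l)).sub (Cc.ers (fun v => Cc.a [v, w]) l (fun l' => Cc.a l')),
      fun U t ψ hPP _ s θ hs => ?_⟩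
    obtain ⟨⟨C, hU⟩, hp⟩ := id hPP
    obtain ⟨h1, h2⟩ := CM_D hPP hs θ w l (GC.const (H := E) 1)
    refine ⟨h1, ?_⟩
    unfold D
    rw [h2]
    simp only [CM_two hU hs]
  | z l =>
    refine ⟨_, ((Cc.z (w :: l)).sub (Cc.ers (fun v => Cc.a [v, w]) l (fun l' => Cc.z l'))).sub
      ((Cc.a l).mul0 (Cc.z [w])), fun U t ψ hPP hψ s θ hs => ?_⟩
    obtain ⟨⟨C, hU⟩, hp⟩ := id hPP
    obtain ⟨h1, h2⟩ := CM_D hPP hs θ w l hψ
    obtain ⟨h3, h4⟩ := CM_D hPP hs θ w l (GC.const (H := E) 1)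
    obtain ⟨h5, h6⟩ := (rgpE E U t hPP ψ hψ).2.1 s θ w hs
    have hd := h1.hasFDerivAt.fun_sub (h5.hasFDerivAt.fun_mul h3.hasFDerivAt)
    refine ⟨hd.differentiableAt, ?_⟩
    unfold D
    rw [hd.fderiv]
    simp only [sub_apply, add_apply, smul_apply, smul_eq_mul]
    rw [h2, h4, h6, CM_one hU hs θ hψ, CM_one_one hU hs, ers_sub]
    simp only [CM_two hU hs]
    ring
  | @add d F G _ _ ihF ihG =>
    obtain ⟨F', hF', h1⟩ := ihF
    obtain ⟨G', hG', h2⟩ := ihG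
    refine ⟨_, hF'.add hG', fun U t ψ hPP hψ s θ hs => ?_⟩
    obtain ⟨a1, a2⟩ := h1 U t ψ hPP hψ s θ hs
    obtain ⟨b1, b2⟩ := h2 U t ψ hPP hψ s θ hs
    have hd := a1.hasFDerivAt.fun_add b1.hasFDerivAt
    refine ⟨hd.differentiableAt, ?_⟩
    unfold D at a2 b2 ⊢
    rw [hd.fderiv]
    simp only [add_apply]
    rw [a2, b2]
  | @mul d e F G hF hG ihF ihG =>
    obtain ⟨F', hF', h1⟩ := ihF
    obtain ⟨G', hG', h2⟩ := ihG
    refine ⟨_, (hF.mul hG').add (hF'.mul hG), fun U t ψ hPP hψ s θ hs => ?_⟩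
    obtain ⟨a1, a2⟩ := h1 U t ψ hPP hψ s θ hs
    obtain ⟨b1, b2⟩ := h2 U t ψ hPP hψ s θ hs
    have hd := a1.hasFDerivAt.fun_mul b1.hasFDerivAt
    refine ⟨hd.differentiableAt, ?_⟩
    unfold D at a2 b2 ⊢
    rw [hd.fderiv]
    simp only [add_apply, smul_apply, smul_eq_mul]
    rw [a2, b2]
    ring

/-- the uniform bound -/
theorem Cc.bound {d : ℕ} {F : (E → ℝ) → (E → ℝ) → ℝ → E → ℝ} (hF : Cc d F) {t : ℝ} (ht : 0 < t) :
    ∃ B : ℝ, 0 ≤ B ∧ ∀ (U : E → ℝ), PP U t → ∀ ψ : E → ℝ, GC ψ → ∀ (s : ℝ) (θ : E), 0 ≤ s →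
      |F U ψ s θ| ≤ B * Real.sqrt (cv (pw U s θ) ψ ψ) ^ d := by
  induction hF with
  | zero d => exact ⟨0, le_rfl, fun U _ ψ _ s θ _ => by simp⟩
  | cst c => exact ⟨|c|, abs_nonneg c, fun U _ ψ _ s θ _ => by simp⟩
  | a l =>
    obtain ⟨B, hB, h⟩ := CM_bd0 (E := E) ht l
    refine ⟨B, hB, fun U hPP ψ _ s θ hs => ?_⟩
    rw [pow_zero, mul_one]
    exact h U hPP s θ hs
  | z l =>
    obtain ⟨B, hB, h⟩ := CM_bd1 (E := E) ht l
    refine ⟨B, hB, fun U hPP ψ hψ s θ hs => ?_⟩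
    rw [pow_one]
    exact h U hPP ψ hψ s θ hs
  | @add d F G _ _ ihF ihG =>
    obtain ⟨A, hA, h1⟩ := ihF
    obtain ⟨B, hB, h2⟩ := ihG
    refine ⟨A + B, add_nonneg hA hB, fun U hPP ψ hψ s θ hs => ?_⟩
    rw [add_mul]
    exact (abs_add_le _ _).trans (add_le_add (h1 U hPP ψ hψ s θ hs) (h2 U hPP ψ hψ s θ hs))
  | @mul d e F G _ _ ihF ihG =>
    obtain ⟨A, hA, h1⟩ := ihF
    obtain ⟨B, hB, h2⟩ := ihG
    refine ⟨A * B, mul_nonneg hA hB, fun U hPP ψ hψ s θ hs => ?_⟩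
    rw [abs_mul, pow_add]
    have e : A * B * (Real.sqrt (cv (pw U s θ) ψ ψ) ^ d * Real.sqrt (cv (pw U s θ) ψ ψ) ^ e) =
        (A * Real.sqrt (cv (pw U s θ) ψ ψ) ^ d) * (B * Real.sqrt (cv (pw U s θ) ψ ψ) ^ e) := by
      ring
    rw [e]
    exact mul_le_mul (h1 U hPP ψ hψ s θ hs) (h2 U hPP ψ hψ s θ hs) (abs_nonneg _)
      (mul_nonneg hA (pow_nonneg (Real.sqrt_nonneg _) _))

/-- the derivatives of the posterior mean of `ψ` belong to the class of degree one -/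
theorem nd_psi (l : List E) : ∀ v : E, ∃ F : (E → ℝ) → (E → ℝ) → ℝ → E → ℝ, Cc 1 F ∧
    ∀ (U : E → ℝ) (t : ℝ) (ψ : E → ℝ), PP U t → GC ψ → ∀ (s : ℝ) (θ : E), 0 ≤ s →
      H52.KB.ND U ψ (v :: l) s θ = F U ψ s θ := by
  induction l with
  | nil =>
    intro v
    refine ⟨_, Cc.z [v], fun U t ψ hPP hψ s θ hs => ?_⟩
    obtain ⟨⟨C, hU⟩, hp⟩ := id hPP
    rw [CM_one hU hs θ hψ, CM_one_one hU hs, mul_zero, sub_zero]
    exact ((rgpE E U t hPP ψ hψ).2.1 s θ v hs).2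
  | cons w l ih =>
    intro v
    obtain ⟨F, hF, h⟩ := ih w
    obtain ⟨F', hF', h'⟩ := hF.deriv v
    refine ⟨F', hF', fun U t ψ hPP hψ s θ hs => ?_⟩
    have e : (fun θ => H52.KB.ND U ψ (w :: l) s θ) = fun θ => F U ψ s θ := by
      funext θ
      exact h U t ψ hPP hψ s θ hs
    show D v (fun θ => H52.KB.ND U ψ (w :: l) s θ) θ = _
    rw [e]
    exact (h' U t ψ hPP hψ s θ hs).2

/-- the derivatives of the posterior mean of a linear function belong to the class of degree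
zero -/
theorem nd_lin (e : E) (l : List E) : ∀ v : E, ∃ F : (E → ℝ) → (E → ℝ) → ℝ → E → ℝ, Cc 0 F ∧
    ∀ (U : E → ℝ) (t : ℝ) (ψ : E → ℝ), PP U t → GC ψ → ∀ (s : ℝ) (θ : E), 0 ≤ s →
      H52.KB.ND U (li e) (v :: l) s θ = F U ψ s θ := by
  induction l with
  | nil =>
    intro v
    refine ⟨_, Cc.a [e, v], fun U t ψ hPP _ s θ hs => ?_⟩
    obtain ⟨⟨C, hU⟩, hp⟩ := id hPP
    rw [CM_two hU hs]
    exact ((rgpE E U t hPP (li e) (H85.KG.gc_lin e)).2.1 s θ v hs).2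
  | cons w l ih =>
    intro v
    obtain ⟨F, hF, h⟩ := ih w
    obtain ⟨F', hF', h'⟩ := hF.deriv v
    refine ⟨F', hF', fun U t ψ hPP hψ s θ hs => ?_⟩
    have e : (fun θ => H52.KB.ND U (li e) (w :: l) s θ) = fun θ => F U ψ s θ := by
      funext θ
      exact h U t ψ hPP hψ s θ hs
    show D v (fun θ => H52.KB.ND U (li _) (w :: l) s θ) θ = _
    rw [e]
    exact (h' U t ψ hPP hψ s θ hs).2

/-- `nd_bd`: uniform bound for the derivatives of the posterior mean of `ψ` -/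
theorem nd_bd {t : ℝ} (ht : 0 < t) (l : List E) (hl : l ≠ []) : ∃ B : ℝ, 0 ≤ B ∧
    ∀ (U : E → ℝ), PP U t → ∀ ψ : E → ℝ, GC ψ → ∀ (s : ℝ) (θ : E), 0 ≤ s →
      (H52.KB.ND U ψ l s θ) ^ 2 ≤ B * cv (pw U s θ) ψ ψ := by
  obtain ⟨v, l, rfl⟩ := List.exists_cons_of_ne_nil hl
  obtain ⟨F, hF, h⟩ := nd_psi l v
  obtain ⟨B, hB, hb⟩ := hF.bound ht
  refine ⟨B ^ 2, sq_nonneg B, fun U hPP ψ hψ s θ hs => ?_⟩
  have h0 : 0 ≤ cv (pw U s θ) ψ ψ :=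
    ((bas_thm E).2.2.2.1 _ _ ((H85.KG.pwb_thm E U t hPP).1 s θ hs) _ _ hψ hψ).2.1
  have h1 := hb U hPP ψ hψ s θ hs
  rw [pow_one] at h1
  rw [h U t ψ hPP hψ s θ hs, ← sq_abs]
  calc |F U ψ s θ| ^ 2 ≤ (B * Real.sqrt (cv (pw U s θ) ψ ψ)) ^ 2 :=
      pow_le_pow_left₀ (abs_nonneg _) h1 2
    _ = B ^ 2 * cv (pw U s θ) ψ ψ := by rw [mul_pow, Real.sq_sqrt h0]

/-- `nx_bd`: uniform bound for the derivatives of the posterior mean of a linear function -/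
theorem nx_bd {t : ℝ} (ht : 0 < t) (e : E) (l : List E) (hl : l ≠ []) : ∃ B : ℝ, 0 ≤ B ∧
    ∀ (U : E → ℝ), PP U t → ∀ (s : ℝ) (θ : E), 0 ≤ s → |H52.KB.ND U (li e) l s θ| ≤ B := by
  obtain ⟨v, l, rfl⟩ := List.exists_cons_of_ne_nil hl
  obtain ⟨F, hF, h⟩ := nd_lin e l v
  obtain ⟨B, hB, hb⟩ := hF.bound ht
  refine ⟨B, hB, fun U hPP s θ hs => ?_⟩
  have h1 := hb U hPP (fun _ => 0) (GC.const (H := E) 0) s θ hs
  rw [pow_zero, mul_one] at h1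
  rwa [h U t (fun _ => 0) hPP (GC.const (H := E) 0) s θ hs]

/-- uniform bound for finitely many words -/
theorem nd_bd_fin {t : ℝ} (ht : 0 < t) {κ : Type} [Finite κ] (l : κ → List E)
    (hl : ∀ k, l k ≠ []) : ∃ B : ℝ, 0 ≤ B ∧
    ∀ k, ∀ (U : E → ℝ), PP U t → ∀ ψ : E → ℝ, GC ψ → ∀ (s : ℝ) (θ : E), 0 ≤ s →
      (H52.KB.ND U ψ (l k) s θ) ^ 2 ≤ B * cv (pw U s θ) ψ ψ := by
  classical
  have := Fintype.ofFinite κ
  choose B hB h using fun k => nd_bd ht (l k) (hl k)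
  refine ⟨∑ k, B k, Finset.sum_nonneg fun k _ => hB k, fun k U hPP ψ hψ s θ hs => ?_⟩
  refine (h k U hPP ψ hψ s θ hs).trans ?_
  have h0 : 0 ≤ cv (pw U s θ) ψ ψ :=
    ((bas_thm E).2.2.2.1 _ _ ((H85.KG.pwb_thm E U t hPP).1 s θ hs) _ _ hψ hψ).2.1
  exact mul_le_mul_of_nonneg_right (Finset.single_le_sum (fun k _ => hB k) (Finset.mem_univ k)) h0

/-- uniform bound for finitely many words -/
theorem nx_bd_fin {t : ℝ} (ht : 0 < t) {κ : Type} [Finite κ] (e : κ → E) (l : κ → List E)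
    (hl : ∀ k, l k ≠ []) : ∃ B : ℝ, 0 ≤ B ∧
    ∀ k, ∀ (U : E → ℝ), PP U t → ∀ (s : ℝ) (θ : E), 0 ≤ s →
      |H52.KB.ND U (li (e k)) (l k) s θ| ≤ B := by
  classical
  have := Fintype.ofFinite κ
  choose B hB h using fun k => nx_bd ht (e k) (l k) (hl k)
  refine ⟨∑ k, B k, Finset.sum_nonneg fun k _ => hB k, fun k U hPP s θ hs => ?_⟩
  exact (h k U hPP s θ hs).trans
    (Finset.single_le_sum (fun k _ => hB k) (Finset.mem_univ k))

/-- the two definitions of the iterated derivatives agree -/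
theorem nd_eq (U ψ : E → ℝ) (l : List E) : H89.KD.ND U ψ l = H52.KB.ND U ψ l := by
  induction l with
  | nil => rfl
  | cons v l ih =>
    funext s θ
    show D v (fun θ => H89.KD.ND U ψ l s θ) θ = D v (fun θ => H52.KB.ND U ψ l s θ) θ
    rw [ih]

end Pool.Agent.H27.KB
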