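import Pool.Agent.H27.KB.MOM
import Pool.Agent.H85.KG.RGP
import Pool.Agent.H85.KG.AAG
import Pool.Agent.H83.KG.RGC
import Pool.Agent.H62.KG.ZSM

/-!
# Project KB (full KLS, part B): centred posterior moments, derivative and generator
-/

set_option autoImplicit false
set_option linter.unusedSectionVars false

open MeasureTheory Set Filter Topology
open scoped ContDiff

namespace Pool.Agent.H27.KB

open Pool.Agent.H84 Pool.Agent.H84.Sym Pool.Agent.H84.Sym.P2x Pool.Agent.H19.KL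
open Pool.Agent.H84.Sym.C29 Pool.Agent.H84.Sym.P6
open Pool.Agent.H73.KG

variable {E : Type} [NormedAddCommGroup E] [InnerProductSpace ℝ E]
    [FiniteDimensional ℝ E] [MeasurableSpace E] [BorelSpace E]

theorem rgpE (E : Type) [NormedAddCommGroup E] [InnerProductSpace ℝ E]
    [FiniteDimensional ℝ E] [MeasurableSpace E] [BorelSpace E] : RGPStmt E :=
  H85.KG.rgp_thm E (zsm_thm E) (H85.KG.pmg_thm E (bas_thm E) (zsm_thm E))

/-- centred posterior moments -/
noncomputable def CM (U F : E → ℝ) (l : List E) (s : ℝ) (θ : E) : ℝ :=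
  pm U s θ (fun x => F x * cen (fun v => pm U s θ (li v)) l x)

/-- sum over all ways to remove one letter -/
def ers (c : E → ℝ) : List E → (List E → ℝ) → ℝ
  | [], _ => 0
  | v :: l, Φ => c v * Φ l + ers c l (fun l' => Φ (v :: l'))

theorem ers_sub (c : E → ℝ) (l : List E) : ∀ (Φ Ψ : List E → ℝ) (k : ℝ),
    ers c l (fun l' => Φ l' - k * Ψ l') = ers c l Φ - k * ers c l Ψ := by
  induction l with
  | nil => intro Φ Ψ k; simp [ers]
  | cons v l ih =>
    intro Φ Ψ k
    simp only [ers]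
    rw [ih (fun l' => Φ (v :: l')) (fun l' => Ψ (v :: l')) k]
    ring

section basic

variable {U : E → ℝ} {t C : ℝ}

theorem gc_F_cen {F : E → ℝ} (hF : GC F) (a : E → ℝ) (l : List E) :
    GC (fun x => F x * cen a l x) := hF.mul (cen_gc a l)

theorem CM_nil (U F : E → ℝ) (s : ℝ) (θ : E) : CM U F [] s θ = pm U s θ F := by
  unfold CM
  simp [cen]

theorem CM_cons (hU : Pot U t C) {s : ℝ} (hs : 0 ≤ s) (θ : E) {F : E → ℝ} (hF : GC F) (v : E)
    (l : List E) : CM U F (v :: l) s θ =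
      CM U (fun x => F x * li v x) l s θ - pm U s θ (li v) * CM U F l s θ := by
  unfold CM
  have e : (fun x => F x * cen (fun v => pm U s θ (li v)) (v :: l) x) = fun x =>
      (F x * li v x) * cen (fun v => pm U s θ (li v)) l x +
      (-pm U s θ (li v)) * (F x * cen (fun v => pm U s θ (li v)) l x) := by
    funext x
    simp only [cen]
    ring
  rw [e, H85.KG.pm_add hU hs θ (gc_F_cen (hF.mul (H85.KG.gc_lin v)) _ _)
    ((GC.const (H := E) _).mul (gc_F_cen hF _ _)), H85.KG.pm_const_mul hU hs]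
  ring

theorem CM_comm (U F : E → ℝ) (s : ℝ) (θ v w : E) (l : List E) :
    CM U F (v :: w :: l) s θ = CM U F (w :: v :: l) s θ := by
  unfold CM
  congr 1
  funext x
  simp only [cen]
  ring

theorem CM_one (hU : Pot U t C) {s : ℝ} (hs : 0 ≤ s) (θ : E) {F : E → ℝ} (hF : GC F) (w : E) :
    CM U F [w] s θ = cv (pw U s θ) F (li w) := by
  rw [CM_cons hU hs θ hF, CM_nil, CM_nil, H85.KG.cv_pw hU hs]
  ring

theorem CM_one_one (hU : Pot U t C) {s : ℝ} (hs : 0 ≤ s) (θ : E) (w : E) :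
    CM U (fun _ => 1) [w] s θ = 0 := by
  rw [CM_one hU hs θ (GC.const (H := E) 1), H85.KG.cv_pw hU hs, H85.KG.pm_const hU hs]
  simp

theorem CM_two (hU : Pot U t C) {s : ℝ} (hs : 0 ≤ s) (θ : E) (v w : E) :
    CM U (fun _ => 1) [v, w] s θ = cv (pw U s θ) (li v) (li w) := by
  rw [CM_cons hU hs θ (GC.const (H := E) 1), CM_one_one hU hs, mul_zero, sub_zero]
  have e : (fun x => (1:ℝ) * li v x) = li v := by
    funext x
    rw [one_mul]
  rw [e, CM_one hU hs θ (H85.KG.gc_lin v)]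

theorem CM_rg (hPP : PP U t) (l : List E) : ∀ {F : E → ℝ}, GC F →
    RG (fun s θ => CM U F l s θ) := by
  obtain ⟨⟨C, hU⟩, hp⟩ := id hPP
  obtain ⟨hc, hadd, hmul, -, -, -, hcongr⟩ := rgc_thm E
  have hR := rgpE E U t hPP
  induction l with
  | nil =>
    intro F hF
    refine hcongr _ _ (hR F hF).1 fun s θ _ => (CM_nil U F s θ).symm
  | cons v l ih =>
    intro F hF
    have h1 := ih (hF.mul (H85.KG.gc_lin v))
    have h2 := ih hF
    have h3 := (hR (li v) (H85.KG.gc_lin v)).1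
    refine hcongr _ _ (hadd _ _ h1 (hmul _ _ (hc (-1)) (hmul _ _ h3 h2))) fun s θ hs => ?_
    rw [CM_cons hU hs θ hF]
    ring

theorem CM_D (hPP : PP U t) {s : ℝ} (hs : 0 ≤ s) (θ w : E) (l : List E) : ∀ {F : E → ℝ}, GC F →
    DifferentiableAt ℝ (fun θ => CM U F l s θ) θ ∧
    fderiv ℝ (fun θ => CM U F l s θ) θ w = CM U F (w :: l) s θ -
      ers (fun v => cv (pw U s θ) (li v) (li w)) l (fun l' => CM U F l' s θ) := by
  obtain ⟨⟨C, hU⟩, hp⟩ := id hPP
  have hR := rgpE E U t hPP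
  induction l with
  | nil =>
    intro F hF
    have e : (fun θ => CM U F [] s θ) = fun θ => pm U s θ F := by
      funext θ
      exact CM_nil U F s θ
    rw [e]
    obtain ⟨h1, h2⟩ := (hR F hF).2.1 s θ w hs
    refine ⟨h1, ?_⟩
    rw [h2, CM_one hU hs θ hF]
    simp [ers]
  | cons v l ih =>
    intro F hF
    have hFv := hF.mul (H85.KG.gc_lin v)
    have e : (fun θ => CM U F (v :: l) s θ) = fun θ =>
        CM U (fun x => F x * li v x) l s θ - pm U s θ (li v) * CM U F l s θ := by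
      funext θ
      exact CM_cons hU hs θ hF v l
    obtain ⟨a1, a2⟩ := ih hFv
    obtain ⟨b1, b2⟩ := ih hF
    obtain ⟨c1, c2⟩ := (hR (li v) (H85.KG.gc_lin v)).2.1 s θ w hs
    have hd := a1.hasFDerivAt.fun_sub (c1.hasFDerivAt.fun_mul b1.hasFDerivAt)
    rw [e]
    refine ⟨hd.differentiableAt, ?_⟩
    rw [hd.fderiv]
    simp only [ContinuousLinearMap.sub_apply, ContinuousLinearMap.add_apply,
      ContinuousLinearMap.smul_apply, smul_eq_mul]
    rw [a2, b2, c2, CM_comm, CM_cons hU hs θ hF v (w :: l)]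
    have e2 : (fun l' => CM U F (v :: l') s θ) = fun l' =>
        CM U (fun x => F x * li v x) l' s θ - pm U s θ (li v) * CM U F l' s θ := by
      funext l'
      exact CM_cons hU hs θ hF v l'
    show _ = _ - (cv (pw U s θ) (li v) (li w) * CM U F l s θ +
      ers (fun v => cv (pw U s θ) (li v) (li w)) l (fun l' => CM U F (v :: l') s θ))
    rw [e2, ers_sub]
    ring

/-- bound of the centred moments of the constant function -/
theorem CM_bd0 {t : ℝ} (ht : 0 < t) (l : List E) : ∃ B : ℝ, 0 ≤ B ∧ ∀ U : E → ℝ, PP U t →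
    ∀ (s : ℝ) (θ : E), 0 ≤ s → |CM U (fun _ => 1) l s θ| ≤ B := by
  obtain ⟨B, hB, hB'⟩ := mom_thm ht l
  refine ⟨Real.sqrt B, Real.sqrt_nonneg _, fun U hPP s θ hs => ?_⟩
  obtain ⟨⟨C, hU⟩, hp⟩ := id hPP
  have hPs : PP (pw U s θ) (t + s) := (H85.KG.pwb_thm E U t hPP).1 s θ hs
  have hPs' : PP (pw U s θ) t := (bas_thm E).1 _ _ _ hPs ht (by linarith)
  have h1 := hB' _ hPs'
  have hm : mn (pw U s θ) = fun v => pm U s θ (li v) := by
    funext v
    unfold H73.KG.mn
    rw [H85.KG.int_pw hU hs]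
  rw [hm] at h1
  have h2 := ((bas_thm E).2.2.2.1 _ _ hPs' _ _ (cen_gc (fun v => pm U s θ (li v)) l)
    (cen_gc (fun v => pm U s θ (li v)) l)).2.1
  rw [H85.KG.cv_pw hU hs] at h2
  rw [H85.KG.int_pw hU hs] at h1
  have e1 : (fun x => cen (fun v => pm U s θ (li v)) l x * cen (fun v => pm U s θ (li v)) l x) =
      fun x => cen (fun v => pm U s θ (li v)) l x ^ 2 := by
    funext x
    ring
  rw [e1] at h2
  have e2 : CM U (fun _ => 1) l s θ = pm U s θ (cen (fun v => pm U s θ (li v)) l) := by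
    unfold CM
    congr 1
    funext x
    rw [one_mul]
  rw [e2, ← Real.sqrt_sq_eq_abs]
  apply Real.sqrt_le_sqrt
  have : pm U s θ (fun x => cen (fun v => pm U s θ (li v)) l x) =
    pm U s θ (cen (fun v => pm U s θ (li v)) l) := rfl
  nlinarith [h1, h2]

/-- bound of the centred moments of a centred function -/
theorem CM_bd1 {t : ℝ} (ht : 0 < t) (l : List E) : ∃ B : ℝ, 0 ≤ B ∧ ∀ U : E → ℝ, PP U t →
    ∀ ψ : E → ℝ, GC ψ → ∀ (s : ℝ) (θ : E), 0 ≤ s →
    |CM U ψ l s θ - pm U s θ ψ * CM U (fun _ => 1) l s θ| ≤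
      B * Real.sqrt (cv (pw U s θ) ψ ψ) := by
  obtain ⟨B, hB, hB'⟩ := mom_thm ht l
  refine ⟨Real.sqrt B, Real.sqrt_nonneg _, fun U hPP ψ hψ s θ hs => ?_⟩
  obtain ⟨⟨C, hU⟩, hp⟩ := id hPP
  have hPs : PP (pw U s θ) (t + s) := (H85.KG.pwb_thm E U t hPP).1 s θ hs
  have hPs' : PP (pw U s θ) t := (bas_thm E).1 _ _ _ hPs ht (by linarith)
  have h1 := hB' _ hPs'
  have hm : mn (pw U s θ) = fun v => pm U s θ (li v) := by
    funext v
    unfold H73.KG.mn
    rw [H85.KG.int_pw hU hs]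
  rw [hm] at h1
  set c : E → ℝ := cen (fun v => pm U s θ (li v)) l with hc
  have gc : GC c := cen_gc _ _
  obtain ⟨h2, h3, -, -⟩ := (bas_thm E).2.2.2.1 _ _ hPs' _ _ hψ gc
  obtain ⟨-, h4, -, -⟩ := (bas_thm E).2.2.2.1 _ _ hPs' _ _ gc gc
  have e1 : CM U ψ l s θ - pm U s θ ψ * CM U (fun _ => 1) l s θ = cv (pw U s θ) ψ c := by
    rw [H85.KG.cv_pw hU hs]
    unfold CM
    rw [← hc]
    congr 2
    congr 1
    funext x
    rw [one_mul]
  have e2 : cv (pw U s θ) c c ≤ B := by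
    refine le_trans ?_ h1
    rw [H85.KG.cv_pw hU hs, H85.KG.int_pw hU hs]
    have e3 : (fun x => c x * c x) = fun x => c x ^ 2 := by
      funext x
      ring
    rw [e3]
    nlinarith [sq_nonneg (pm U s θ c)]
  rw [e1, ← Real.sqrt_mul hB, ← Real.sqrt_sq_eq_abs]
  apply Real.sqrt_le_sqrt
  calc cv (pw U s θ) ψ c ^ 2 ≤ cv (pw U s θ) ψ ψ * cv (pw U s θ) c c := h2
    _ ≤ cv (pw U s θ) ψ ψ * B := mul_le_mul_of_nonneg_left e2 h3
    _ = B * cv (pw U s θ) ψ ψ := mul_comm _ _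

end basic

end Pool.Agent.H27.KB
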