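import Pool.Agent.H85.KG.PMG
import Pool.Agent.H33.KG.BAS

/-!
# Project KB (full KLS, part B): moments of products of centred linear functions, uniformly
over all measures with `Hess ≥ t`
-/

set_option autoImplicit false

open MeasureTheory Set Filter Topology
open scoped ContDiff

namespace Pool.Agent.H27.KB

open Pool.Agent.H84 Pool.Agent.H84.Sym Pool.Agent.H84.Sym.P2x Pool.Agent.H19.KL
open Pool.Agent.H84.Sym.C29 Pool.Agent.H84.Sym.P6
open Pool.Agent.H73.KG

variable {E : Type} [NormedAddCommGroup E] [InnerProductSpace ℝ E]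

/-- product of the centred linear functions `⟨v, x⟩ - a v` -/
def cen (a : E → ℝ) : List E → E → ℝ
  | [], _ => 1
  | v :: l, x => (li v x - a v) * cen a l x

/-- sum of the absolute values of the centred linear functions -/
def sab (a : E → ℝ) : List E → E → ℝ
  | [], _ => 0
  | v :: l, x => |li v x - a v| + sab a l x

/-- sum of the norms -/
def snm : List E → ℝ
  | [] => 0
  | v :: l => ‖v‖ + snm l

theorem snm_nonneg (l : List E) : 0 ≤ snm l := by
  induction l with
  | nil => exact le_rfl
  | cons v l ih => exact add_nonneg (norm_nonneg v) ih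

theorem cen_gc (a : E → ℝ) (l : List E) : GC (cen a l) := by
  induction l with
  | nil => exact GC.const 1
  | cons v l ih =>
    have h1 : GC (fun x => li v x - a v) := by
      simpa [sub_eq_add_neg] using (H85.KG.gc_lin v).add (GC.const (H := E) (-(a v)))
    exact h1.mul ih

theorem sab_cont (a : E → ℝ) (l : List E) : Continuous (sab a l) := by
  induction l with
  | nil => exact continuous_const
  | cons v l ih =>
    exact (((H85.KG.gc_lin v).1.sub continuous_const).abs).add ih

theorem sab_nonneg (a : E → ℝ) (l : List E) (x : E) : 0 ≤ sab a l x := by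
  induction l with
  | nil => exact le_rfl
  | cons v l ih => exact add_nonneg (abs_nonneg _) ih

theorem sab_lip (a : E → ℝ) (l : List E) (x y : E) :
    |sab a l x - sab a l y| ≤ snm l * ‖x - y‖ := by
  induction l with
  | nil => simp [sab, snm]
  | cons v l ih =>
    have h1 : |(|li v x - a v| - |li v y - a v|)| ≤ ‖v‖ * ‖x - y‖ := by
      refine (abs_abs_sub_abs_le_abs_sub _ _).trans ?_
      have : li v x - a v - (li v y - a v) = inner ℝ v (x - y) := by
        simp only [li, inner_sub_right]
        ring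
      rw [this]
      exact abs_real_inner_le_norm _ _
    have e : sab a (v :: l) x - sab a (v :: l) y =
        (|li v x - a v| - |li v y - a v|) + (sab a l x - sab a l y) := by
      simp only [sab]
      ring
    rw [e]
    refine (abs_add_le _ _).trans ?_
    simp only [snm]
    rw [add_mul]
    exact add_le_add h1 ih

theorem cen_le (a : E → ℝ) (l : List E) (x : E) : |cen a l x| ≤ Real.exp (sab a l x) := by
  induction l with
  | nil => simp [cen, sab]
  | cons v l ih =>
    simp only [cen, sab]
    rw [abs_mul, Real.exp_add]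
    refine mul_le_mul ?_ ih (abs_nonneg _) (Real.exp_pos _).le
    have := Real.add_one_le_exp |li v x - a v|
    linarith

variable [FiniteDimensional ℝ E] [MeasurableSpace E] [BorelSpace E]

/-- bound for the mean of `sab` -/
theorem sab_mean {t : ℝ} (ht : 0 < t) (l : List E) : ∃ K : ℝ, 0 ≤ K ∧ ∀ U : E → ℝ, PP U t →
    GC (sab (mn U) l) ∧ ∫ x, sab (mn U) l x ∂(mu U) ≤ K := by
  have hB := bas_thm E
  induction l with
  | nil =>
    refine ⟨0, le_rfl, fun U hU => ⟨GC.const 0, ?_⟩⟩
    simp [sab]
  | cons v l ih =>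
    obtain ⟨K, hK, hK'⟩ := ih
    refine ⟨(1 + ‖v‖ ^ 2 / t) + K, by positivity, fun U hPP => ?_⟩
    obtain ⟨g1, g2⟩ := hK' U hPP
    obtain ⟨⟨C, hU⟩, hp⟩ := id hPP
    have hc : GC (fun x => li v x - mn U v) := by
      simpa [sub_eq_add_neg] using (H85.KG.gc_lin v).add (GC.const (H := E) (-(mn U v)))
    have hca : GC (fun x => |li v x - mn U v|) := by
      refine ⟨hc.1.abs, ?_⟩
      obtain ⟨A, B, h⟩ := hc.2
      exact ⟨A, B, fun x => by rw [abs_abs]; exact h x⟩
    have h2 : ∫ x, |li v x - mn U v| ∂(mu U) ≤ 1 + ‖v‖ ^ 2 / t := by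
      have h3 : ∫ x, |li v x - mn U v| ∂(mu U) ≤
          ∫ x, (1 + (li v x - mn U v) * (li v x - mn U v)) ∂(mu U) := by
        refine integral_mono (hca.integrable hU)
          (((GC.const (H := E) 1).add (hc.mul hc)).integrable hU) fun x => ?_
        show |li v x - mn U v| ≤ 1 + (li v x - mn U v) * (li v x - mn U v)
        nlinarith [sq_abs (li v x - mn U v), sq_nonneg (|li v x - mn U v| - 1),
          abs_nonneg (li v x - mn U v)]
      rw [integral_add ((GC.const (H := E) 1).integrable hU) ((hc.mul hc).integrable hU)] at h3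
      have h4 := (hB.2.2.2.1 U t hPP (li v) (li v) (H85.KG.gc_lin v) (H85.KG.gc_lin v)).2.2.2
      have h5 := hB.2.2.2.2.1 U t hPP v
      rw [h4] at h5
      have h6 : ∫ x, (li v x - mn U v) * (li v x - mn U v) ∂(mu U) ≤ 1 / t * ‖v‖ ^ 2 := h5
      simp only [integral_const, probReal_univ, smul_eq_mul, mul_one] at h3
      have : 1 / t * ‖v‖ ^ 2 = ‖v‖ ^ 2 / t := by ring
      linarith
    have e : sab (mn U) (v :: l) = fun x => |li v x - mn U v| + sab (mn U) l x := rfl
    refine ⟨by rw [e]; exact hca.add g1, ?_⟩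
    rw [e]
    show ∫ x, (|li v x - mn U v| + sab (mn U) l x) ∂(mu U) ≤ _
    rw [integral_add (hca.integrable hU) (g1.integrable hU)]
    exact add_le_add h2 g2

/-- MOM: the squares of the products are bounded in the mean, uniformly -/
theorem mom_thm {t : ℝ} (ht : 0 < t) (l : List E) : ∃ C : ℝ, 0 ≤ C ∧ ∀ U : E → ℝ, PP U t →
    ∫ x, (cen (mn U) l x) ^ 2 ∂(mu U) ≤ C := by
  obtain ⟨K, hK, hK'⟩ := sab_mean ht l
  refine ⟨Real.exp (2 * K + (2 * snm l) ^ 2 / t), (Real.exp_pos _).le, fun U hPP => ?_⟩
  obtain ⟨g1, g2⟩ := hK' U hPP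
  obtain ⟨⟨C, hU⟩, hp⟩ := id hPP
  have hCON := con_thm E (plm_thm E)
  obtain ⟨c1, c2, c3⟩ := hCON _ _ _ hU (fun x => 2 * sab (mn U) l x) (2 * snm l)
    (continuous_const.mul (sab_cont _ _)) (mul_nonneg zero_le_two (snm_nonneg l)) (fun x y => by
      rw [← mul_sub, abs_mul, abs_two, mul_assoc]
      exact mul_le_mul_of_nonneg_left (sab_lip _ _ _ _) zero_le_two)
  simp only [probReal_univ, one_pow, mul_one] at c3
  set c := ∫ x, sab (mn U) l x ∂(mu U) with hc
  have hF : GC (fun x => 2 * sab (mn U) l x) := (GC.const (H := E) 2).mul g1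
  have h1 : Real.exp (-(2 * c)) ≤ ∫ x, Real.exp (-(2 * sab (mn U) l x)) ∂(mu U) := by
    have h2 : ∫ x, Real.exp (-(2 * c)) * (1 + (2 * c) + -(2 * sab (mn U) l x)) ∂(mu U) ≤
        ∫ x, Real.exp (-(2 * sab (mn U) l x)) ∂(mu U) := by
      have hg : GC (fun x => Real.exp (-(2 * c)) * (1 + (2 * c) + -(2 * sab (mn U) l x))) := by
        refine (GC.const (H := E) _).mul ((GC.const (H := E) _).add ?_)
        simpa using (GC.const (H := E) (-1)).mul hF
      refine integral_mono (hg.integrable hU) (c2.integrable hU) fun x => ?_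
      show Real.exp (-(2 * c)) * (1 + (2 * c) + -(2 * sab (mn U) l x)) ≤
        Real.exp (-(2 * sab (mn U) l x))
      have h3 := Real.add_one_le_exp (2 * c - 2 * sab (mn U) l x)
      have h4 : Real.exp (-(2 * sab (mn U) l x)) =
          Real.exp (-(2 * c)) * Real.exp (2 * c - 2 * sab (mn U) l x) := by
        rw [← Real.exp_add]
        congr 1
        ring
      rw [h4]
      refine mul_le_mul_of_nonneg_left ?_ (Real.exp_pos _).le
      linarith
    have h5 : ∫ x, Real.exp (-(2 * c)) * (1 + (2 * c) + -(2 * sab (mn U) l x)) ∂(mu U) =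
        Real.exp (-(2 * c)) := by
      rw [integral_const_mul]
      have hm : GC (fun x => -(2 * sab (mn U) l x)) := by
        simpa using (GC.const (H := E) (-1)).mul hF
      rw [integral_add ((GC.const (H := E) _).integrable hU) (hm.integrable hU), integral_neg,
        integral_const_mul, ← hc]
      simp
    rwa [h5] at h2
  have h6 : ∫ x, Real.exp (2 * sab (mn U) l x) ∂(mu U) ≤
      Real.exp (2 * K + (2 * snm l) ^ 2 / t) := by
    have h7 : (∫ x, Real.exp (2 * sab (mn U) l x) ∂(mu U)) * Real.exp (-(2 * c)) ≤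
        Real.exp ((2 * snm l) ^ 2 / t) := by
      refine le_trans (mul_le_mul_of_nonneg_left h1 ?_) c3
      exact integral_nonneg fun x => (Real.exp_pos _).le
    have h8 : Real.exp (2 * K + (2 * snm l) ^ 2 / t) =
        Real.exp ((2 * snm l) ^ 2 / t) * Real.exp (2 * K) := by
      rw [← Real.exp_add]
      congr 1
      ring
    rw [h8]
    calc ∫ x, Real.exp (2 * sab (mn U) l x) ∂(mu U) =
        (∫ x, Real.exp (2 * sab (mn U) l x) ∂(mu U)) * Real.exp (-(2 * c)) * Real.exp (2 * c) := by
          rw [mul_assoc, ← Real.exp_add]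
          simp
      _ ≤ Real.exp ((2 * snm l) ^ 2 / t) * Real.exp (2 * K) := by
          refine mul_le_mul h7 (Real.exp_le_exp.2 (by linarith)) (Real.exp_pos _).le
            (Real.exp_pos _).le
  have hsq : GC (fun x => (cen (mn U) l x) ^ 2) := by
    have := (cen_gc (mn U) l).mul (cen_gc (mn U) l)
    simpa [pow_two] using this
  refine le_trans (integral_mono (hsq.integrable hU) (c1.integrable hU) fun x => ?_) h6
  · show (cen (mn U) l x) ^ 2 ≤ Real.exp (2 * sab (mn U) l x)
    have h9 := cen_le (mn U) l x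
    rw [← sq_abs]
    calc |cen (mn U) l x| ^ 2 ≤ Real.exp (sab (mn U) l x) ^ 2 :=
        pow_le_pow_left₀ (abs_nonneg _) h9 2
      _ = Real.exp (2 * sab (mn U) l x) := by
        rw [← Real.exp_nat_mul]
        push_cast
        rfl

end Pool.Agent.H27.KB
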